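import Pool.Agent.Helper6.LP.St

/-! # Project LP (MP_5e9b96_nt), module MOB: the second moment -/

set_option autoImplicit false

namespace Pool.Agent.Helper33.LP

open Finset
open Pool.Agent.Helper98.LM (QQ)
open Pool.Agent.Helper6.LP

open Classical in
private theorem sq_sum (s I : Finset ℕ) (v : ℕ → ℝ) (A : ℕ → ℕ → Prop) :
    ∑ m ∈ s, (∑ j ∈ I.filter (fun j => A j m), v j) ^ 2 =
      (∑ j ∈ I, v j ^ 2 * (((s.filter (fun m => A j m)).card : ℕ) : ℝ)) +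
      ∑ j' ∈ I, ∑ j ∈ I.erase j', v j * v j' * (((s.filter (fun m => A j m ∧ A j' m)).card : ℕ) : ℝ) := by
  have e1 : ∀ m, (∑ j ∈ I.filter (fun j => A j m), v j) =
      ∑ j ∈ I, v j * (if A j m then (1 : ℝ) else 0) := by
    intro m
    rw [Finset.sum_filter]
    exact Finset.sum_congr rfl fun j _ => by split_ifs <;> simp
  have e0 : ∀ j, ((((s.filter (fun m => A j m)).card : ℕ) : ℝ)) =
      ∑ m ∈ s, (if A j m then (1 : ℝ) else 0) := by
    intro j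
    rw [Finset.card_filter, Nat.cast_sum]
    exact Finset.sum_congr rfl fun m _ => by split_ifs <;> simp
  have e2 : ∀ j j', ((((s.filter (fun m => A j m ∧ A j' m)).card : ℕ) : ℝ)) =
      ∑ m ∈ s, (if A j m then (1 : ℝ) else 0) * (if A j' m then (1 : ℝ) else 0) := by
    intro j j'
    rw [Finset.card_filter, Nat.cast_sum]
    refine Finset.sum_congr rfl fun m _ => ?_
    by_cases h1 : A j m <;> by_cases h2 : A j' m <;> simp [h1, h2]
  simp only [e1, e2, e0]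
  have e3 : ∀ m, (∑ j ∈ I, v j * (if A j m then (1 : ℝ) else 0)) ^ 2 =
      (∑ j ∈ I, v j ^ 2 * (if A j m then (1 : ℝ) else 0)) +
      ∑ j' ∈ I, ∑ j ∈ I.erase j', v j * v j' *
        ((if A j m then (1 : ℝ) else 0) * (if A j' m then (1 : ℝ) else 0)) := by
    intro m
    rw [pow_two, Finset.mul_sum, ← Finset.sum_add_distrib]
    refine Finset.sum_congr rfl fun j' hj' => ?_
    rw [← Finset.add_sum_erase I (fun j => v j * (if A j m then (1 : ℝ) else 0)) hj',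
      add_mul, Finset.sum_mul]
    congr 1
    · split_ifs
      · ring
      · ring
    · exact Finset.sum_congr rfl fun j _ => by ring
  simp only [e3, Finset.sum_add_distrib, Finset.mul_sum]
  congr 1
  · exact Finset.sum_comm
  · rw [Finset.sum_comm]
    refine Finset.sum_congr rfl fun j' _ => ?_
    rw [Finset.sum_comm]

private theorem corr_ge (Q : Finset ℕ) : (1 : ℝ) ≤ ∏ l ∈ Q, (1 + 8 / (l : ℝ)) := by
  refine Finset.one_le_prod (fun l _ => ?_)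
  have : (0 : ℝ) ≤ 8 / (l : ℝ) := by positivity
  linarith

/-- Module MOB. -/
theorem hMOB (hO : StONE) (hP : StPRP) (hG : StGAP) : StMOB := by
  classical
  intro ε hε
  obtain ⟨B₁, H1⟩ := hO 1 one_pos
  obtain ⟨B₂, H2⟩ := hP ε hε
  obtain ⟨p₂, H3⟩ := hG ε hε
  refine ⟨max B₁ B₂, max 24 p₂, le_max_left _ _, ?_⟩
  intro p P hp hP1 hl
  have hp24 : 24 ≤ p := le_trans (le_max_left _ _) hp
  obtain ⟨J₂, H3'⟩ := H3 p P (le_trans (le_max_right _ _) hp) hP1 hl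
  refine ⟨max 1 J₂, ?_⟩
  intro A Λ J a r w M hJ hr hrP hw hΛ hV
  have hJ2 : J₂ ≤ J := le_trans (le_max_right _ _) hJ
  have hJ1 : 1 ≤ J := le_trans (le_max_left _ _) hJ
  have F3 := H3' J r w hJ2 hr hrP
  obtain ⟨W, hW⟩ : ∃ W : ℝ, W = (w : ℝ) ^ max B₁ B₂ := ⟨_, rfl⟩
  have hw1 : (1 : ℝ) ≤ w := by exact_mod_cast le_trans (by norm_num : 1 ≤ 2) hw
  have hW1 : (w : ℝ) ^ B₁ ≤ W := by
    rw [hW]; exact pow_le_pow_right₀ hw1 (le_max_left _ _)
  have hW2 : (w : ℝ) ^ B₂ ≤ W := by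
    rw [hW]; exact pow_le_pow_right₀ hw1 (le_max_right _ _)
  have hW0 : 0 ≤ W := by rw [hW]; positivity
  rw [← hW]
  have hM0 : (0 : ℝ) ≤ M := Nat.cast_nonneg M
  have hΛ0 : (0 : ℝ) < Λ := by linarith
  obtain ⟨T, hT⟩ : ∃ T, T = TT A p w P r J := ⟨_, rfl⟩
  rw [← hT] at hV ⊢
  have hT6 : ∀ j ∈ T, 6 ≤ r + P * j := by
    intro j hj
    rw [hT] at hj
    exact ((Finset.mem_filter.1 hj).2).1
  have hTs : T ⊆ Icc 1 J := by
    rw [hT]; exact Finset.filter_subset _ _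
  obtain ⟨V, hVd⟩ : ∃ V : ℕ → ℝ, V = fun j => VV p w P a (r + P * j) := ⟨_, rfl⟩
  have hV' : ∀ j ∈ T, 1 ≤ Λ * V j := by rw [hVd]; exact hV
  have hVp : ∀ j ∈ T, 0 < V j := by
    intro j hj
    have e := hV' j hj
    by_contra hc
    rw [not_lt] at hc
    have := mul_nonpos_of_nonneg_of_nonpos hΛ0.le hc
    linarith
  have hvi : ∀ j ∈ T, (V j)⁻¹ ≤ Λ := by
    intro j hj
    rw [inv_le_iff_one_le_mul₀ (hVp j hj)]
    exact hV' j hj
  have hv0 : ∀ j ∈ T, 0 ≤ (V j)⁻¹ := fun j hj => inv_nonneg.2 (hVp j hj).le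
  obtain ⟨S, hS⟩ : ∃ S : ℕ → ℕ → Prop, S = fun (j m : ℕ) => Sf p w ((a : ℤ) + P * (m : ℤ)) ((r + P * j : ℕ) : ℤ) := ⟨_, rfl⟩
  obtain ⟨h, hh⟩ : ∃ h : ℕ → ℕ → ℝ, h = fun j j' =>
      ∏ l ∈ (QQ p w).filter (fun l => l ∣ DD (r + P * j) (r + P * j')), (1 + 8 / (l : ℝ)) := ⟨_, rfl⟩
  have hh1 : ∀ j j', 1 ≤ h j j' := fun j j' => by rw [hh]; exact corr_ge _
  have hF3 : ∀ j' ∈ Icc 1 J, ∑ j ∈ (Icc 1 J).erase j', h j j' ≤ (1 + ε) * J := by
    intro j' hj'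
    rw [hh]; exact F3 j' hj'
  have hone : ∀ j ∈ T, ((((Icc 1 M).filter (fun m : ℕ => S j m)).card : ℕ) : ℝ) ≤ 2 * (M * V j) + W := by
    intro j hj
    have e := H1 p P a (r + P * j) w M hp24 hl hw (le_trans (by norm_num) (hT6 j hj))
    have e2 := (abs_le.1 e).2
    rw [hS, hVd]
    have e3 : ((((Icc 1 M).filter (fun m : ℕ => Sf p w ((a : ℤ) + P * m) ((r + P * j : ℕ) : ℤ))).card : ℕ) : ℝ) ≤
      2 * (M * VV p w P a (r + P * j)) + (w : ℝ) ^ B₁ := by linarith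
    exact e3.trans (by linarith)
  have hpair : ∀ j ∈ T, ∀ j' ∈ T, ((((Icc 1 M).filter (fun m : ℕ => S j m ∧ S j' m)).card : ℕ) : ℝ) ≤
      (1 + ε) * (M * (V j * V j') * h j j') + W := by
    intro j hj j' hj'
    have e := H2 p P a (r + P * j) (r + P * j') w M hp24 hl hw (le_trans (by norm_num) (hT6 j hj))
      (le_trans (by norm_num) (hT6 j' hj'))
    rw [hS, hVd, hh]
    refine le_trans ?_ (e.trans (by linarith))
    refine le_of_eq ?_
    congr 2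
  have key := sq_sum (Icc 1 M) T (fun j => (V j)⁻¹) S
  have hXX : ∀ m, XX A p w P a r J m = ∑ j ∈ T.filter (fun j => S j m), (V j)⁻¹ := by
    intro m
    rw [hT, hS, hVd]
    unfold XX
    rfl
  simp only [hXX]
  rw [key]
  obtain ⟨τ, hτ⟩ : ∃ τ : ℝ, τ = (T.card : ℝ) := ⟨_, rfl⟩
  rw [← hτ]
  have hτ0 : 0 ≤ τ := by rw [hτ]; positivity
  have hττ : τ ≤ τ ^ 2 := by
    rw [hτ]
    exact_mod_cast Nat.le_self_pow (by norm_num) _
  -- diagonal
  have hd : ∑ j ∈ T, (V j)⁻¹ ^ 2 * ((((Icc 1 M).filter (fun m => S j m)).card : ℕ) : ℝ) ≤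
      τ * (2 * (M * Λ) + Λ ^ 2 * W) := by
    have : ∀ j ∈ T, (V j)⁻¹ ^ 2 * ((((Icc 1 M).filter (fun m => S j m)).card : ℕ) : ℝ) ≤
        2 * (M * Λ) + Λ ^ 2 * W := by
      intro j hj
      have h0 := hVp j hj
      have h1 := mul_le_mul_of_nonneg_left (hone j hj) (sq_nonneg (V j)⁻¹)
      refine h1.trans ?_
      have h2 : (V j)⁻¹ ^ 2 * (2 * (M * V j) + W) = 2 * (M * (V j)⁻¹) + (V j)⁻¹ ^ 2 * W := by
        have h3 : (V j)⁻¹ * V j = 1 := inv_mul_cancel₀ h0.ne'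
        have h4 : (V j)⁻¹ ^ 2 * (2 * (M * V j) + W) = 2 * (M * ((V j)⁻¹ * ((V j)⁻¹ * V j))) + (V j)⁻¹ ^ 2 * W := by
          ring
        rw [h4, h3, mul_one]
      rw [h2]
      have h5 : (V j)⁻¹ ^ 2 ≤ Λ ^ 2 := pow_le_pow_left₀ (hv0 j hj) (hvi j hj) 2
      have h6 := mul_le_mul_of_nonneg_right h5 hW0
      have h7 := mul_le_mul_of_nonneg_left (hvi j hj) hM0
      linarith
    have h8 := Finset.sum_le_sum this
    rw [Finset.sum_const, nsmul_eq_mul, ← hτ] at h8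
    exact h8
  -- off-diagonal
  have ho : ∑ j' ∈ T, ∑ j ∈ T.erase j', (V j)⁻¹ * (V j')⁻¹ *
      ((((Icc 1 M).filter (fun m => S j m ∧ S j' m)).card : ℕ) : ℝ) ≤
      τ * ((1 + ε) * (M * (τ + ε * J + 1)) + τ * (Λ ^ 2 * W)) := by
    have hin : ∀ j' ∈ T, ∑ j ∈ T.erase j', (V j)⁻¹ * (V j')⁻¹ *
      ((((Icc 1 M).filter (fun m => S j m ∧ S j' m)).card : ℕ) : ℝ) ≤
      (1 + ε) * (M * (τ + ε * J + 1)) + τ * (Λ ^ 2 * W) := by
      intro j' hj'
      have q1 : ∀ j ∈ T.erase j', (V j)⁻¹ * (V j')⁻¹ *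
          ((((Icc 1 M).filter (fun m => S j m ∧ S j' m)).card : ℕ) : ℝ) ≤
          (1 + ε) * M * h j j' + Λ ^ 2 * W := by
        intro j hj
        have hjT := Finset.mem_of_mem_erase hj
        have hn : 0 ≤ (V j)⁻¹ * (V j')⁻¹ := mul_nonneg (hv0 j hjT) (hv0 j' hj')
        have h1 := mul_le_mul_of_nonneg_left (hpair j hjT j' hj') hn
        refine h1.trans ?_
        have h3 : (V j)⁻¹ * V j = 1 := inv_mul_cancel₀ (hVp j hjT).ne'
        have h3' : (V j')⁻¹ * V j' = 1 := inv_mul_cancel₀ (hVp j' hj').ne'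
        have h4 : (V j)⁻¹ * (V j')⁻¹ * ((1 + ε) * (M * (V j * V j') * h j j') + W) =
            (1 + ε) * M * h j j' * (((V j)⁻¹ * V j) * ((V j')⁻¹ * V j')) + (V j)⁻¹ * (V j')⁻¹ * W := by
          ring
        rw [h4, h3, h3', mul_one, mul_one]
        have h5 : (V j)⁻¹ * (V j')⁻¹ ≤ Λ ^ 2 := by
          rw [pow_two]
          exact mul_le_mul (hvi j hjT) (hvi j' hj') (hv0 j' hj') hΛ0.le
        have h6 := mul_le_mul_of_nonneg_right h5 hW0
        linarith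
      refine (Finset.sum_le_sum q1).trans ?_
      rw [Finset.sum_add_distrib, ← Finset.mul_sum, Finset.sum_const, nsmul_eq_mul]
      have hc1 : (((T.erase j').card : ℕ) : ℝ) ≤ τ := by
        rw [hτ]
        exact_mod_cast Finset.card_erase_le
      have hJ' : j' ∈ Icc 1 J := hTs hj'
      have hsub : T.erase j' ⊆ (Icc 1 J).erase j' := Finset.erase_subset_erase _ hTs
      have q2 : ∑ j ∈ T.erase j', (h j j' - 1) ≤ ∑ j ∈ (Icc 1 J).erase j', (h j j' - 1) :=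
        Finset.sum_le_sum_of_subset_of_nonneg hsub fun j _ _ => by linarith [hh1 j j']
      rw [Finset.sum_sub_distrib, Finset.sum_sub_distrib, Finset.sum_const, Finset.sum_const,
        nsmul_eq_mul, nsmul_eq_mul, mul_one, mul_one] at q2
      have hc2 : ((((Icc 1 J).erase j').card : ℕ) : ℝ) = J - 1 := by
        rw [Finset.card_erase_of_mem hJ', Nat.card_Icc, Nat.add_sub_cancel, Nat.cast_sub hJ1,
          Nat.cast_one]
      rw [hc2] at q2
      have q3 := hF3 j' hJ'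
      have q4 : ∑ j ∈ T.erase j', h j j' ≤ τ + ε * J + 1 := by linarith
      have q5 : (1 + ε) * M * ∑ j ∈ T.erase j', h j j' ≤ (1 + ε) * M * (τ + ε * J + 1) :=
        mul_le_mul_of_nonneg_left q4 (by positivity)
      have q6 : (((T.erase j').card : ℕ) : ℝ) * (Λ ^ 2 * W) ≤ τ * (Λ ^ 2 * W) :=
        mul_le_mul_of_nonneg_right hc1 (by positivity)
      linarith
    have h8 := Finset.sum_le_sum hin
    rw [Finset.sum_const, nsmul_eq_mul, ← hτ] at h8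
    exact h8
  have hfin : τ * (Λ ^ 2 * W) ≤ τ ^ 2 * (Λ ^ 2 * W) := mul_le_mul_of_nonneg_right hττ (by positivity)
  have e1 := add_le_add hd ho
  refine e1.trans ?_
  have e2 : τ * (2 * (M * Λ) + Λ ^ 2 * W) + τ * ((1 + ε) * (M * (τ + ε * J + 1)) + τ * (Λ ^ 2 * W)) =
      (1 + ε) * (M * (τ * (τ + ε * J + 1))) + 2 * (M * τ * Λ) + (τ * (Λ ^ 2 * W) + τ ^ 2 * (Λ ^ 2 * W)) := by
    ring
  rw [e2]
  have e3 : 2 * (τ ^ 2 * Λ ^ 2 * W) = τ ^ 2 * (Λ ^ 2 * W) + τ ^ 2 * (Λ ^ 2 * W) := by ring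
  rw [e3]
  linarith

end Pool.Agent.Helper33.LP
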